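import Mathlib

set_option autoImplicit false

namespace Pool.Agent.Results.MP_409260_co.JoinC4C5

/-- The ball B(v,r): the vertices at graph distance at most r from v. -/
def ball {V : Type} (G : SimpleGraph V) (v : V) (r : ℕ) : Set V := {u | G.edist v u ≤ r}

/-- successor on the 4-cycle 0,1,2,3 and on the 5-cycle 4,...,8 -/
def nx : Fin 9 → Fin 9 := ![1, 2, 3, 0, 5, 6, 7, 8, 4]

def hadj (a b : Fin 9) : Prop := nx a = b ∨ nx b = a

instance : DecidableRel hadj := fun a b => by unfold hadj; infer_instance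

def G (t : ℕ) : SimpleGraph (Fin t × Fin 9) where
  Adj p q := p.1 ≠ q.1 ∨ hadj p.2 q.2
  symm := ⟨fun _ _ h => h.imp (fun h => h.symm) (fun h => h.symm)⟩
  loopless := ⟨fun p h => h.elim (fun h => h rfl)
    ((by decide : ∀ a : Fin 9, ¬ hadj a a) p.2)⟩

def f : Fin 9 → Fin 9 → Fin 9 := ![![0,1,3,2,4,5,6,7,8], ![1,0,2,3,4,5,6,7,8],
  ![2,1,3,0,4,5,6,7,8], ![3,0,2,1,4,5,6,7,8], ![4,5,8,0,1,2,3,6,7], ![5,4,6,0,1,2,3,7,8],
  ![6,5,7,0,1,2,3,4,8], ![7,6,8,0,1,2,3,4,5], ![8,4,7,0,1,2,3,5,6]]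

def g : Fin 9 → Fin 9 → Fin 9 := ![![0,1,3,2,4,5,6,7,8], ![1,0,2,3,4,5,6,7,8],
  ![3,1,0,2,4,5,6,7,8], ![1,3,2,0,4,5,6,7,8], ![3,4,5,6,0,1,7,8,2], ![3,4,5,6,1,0,2,7,8],
  ![3,4,5,6,7,1,0,2,8], ![3,4,5,6,7,8,1,0,2], ![3,4,5,6,1,7,8,2,0]]

theorem fg : ∀ a c, f a (g a c) = c := by decide +kernel
theorem gf : ∀ a c, g a (f a c) = c := by decide +kernel

def pr (a b : Fin 9) : Fin 9 ≃ Fin 9 where
  toFun c := f b (g a c)
  invFun c := f a (g b c)
  left_inv c := by simp only [gf, fg]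
  right_inv c := by simp only [gf, fg]

theorem pr1 : ∀ a b, f b (g a a) = b := by decide +kernel
theorem pr2 : ∀ a b c, (hadj a c ∨ a = c) ↔ (hadj b (f b (g a c)) ∨ b = f b (g a c)) := by
  decide +kernel
theorem pr3 : ∀ a b c d, (hadj a c ∨ a = c) → (hadj a d ∨ a = d) →
    (hadj (f b (g a c)) (f b (g a d)) ↔ hadj c d) := by decide +kernel

theorem mem_ball {t : ℕ} (i : Fin t) (a : Fin 9) (k : Fin t) (c : Fin 9) :
    (k, c) ∈ ball (G t) (i, a) 1 ↔ i ≠ k ∨ (hadj a c ∨ a = c) := by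
  unfold ball
  rw [Set.mem_ofPred_eq, Nat.cast_one, SimpleGraph.edist_le_one_iff_adj_or_eq]
  change ((i ≠ k ∨ hadj a c) ∨ (i, a) = (k, c)) ↔ _
  rw [Prod.mk.injEq]
  tauto

/-- For every t ≥ 2 there is a graph on n = 9t vertices, of diameter 2, all of whose balls of
radius 1 have exactly 9t - 6 vertices and are pairwise isomorphic as rooted graphs, and which is
not vertex transitive. -/
theorem result (t : ℕ) (ht : 2 ≤ t) :
    ∃ (V : Type) (_ : Fintype V) (G : SimpleGraph V),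
      Fintype.card V = 9 * t ∧ G.ediam = 2 ∧
      (∀ v, (ball G v 1).ncard = 9 * t - 6) ∧
      (∀ v w, ∃ φ : G.induce (ball G v 1) ≃g G.induce (ball G w 1),
        ∀ x : ball G v 1, (x : V) = v → (φ x : V) = w) ∧
      ¬ ∀ v w, ∃ φ : G ≃g G, φ v = w := by
  refine ⟨Fin t × Fin 9, inferInstance, G t, by simp [mul_comm], ?_, ?_, ?_, ?_⟩
  · apply le_antisymm
    · rw [SimpleGraph.ediam_le_iff]
      rintro ⟨i, a⟩ ⟨j, b⟩
      by_cases hij : i = j
      · subst hij
        obtain ⟨k, hk⟩ : ∃ k : Fin t, k ≠ i := by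
          have : Nontrivial (Fin t) := Fin.nontrivial_iff_two_le.2 ht
          exact exists_ne i
        have h1 : (G t).edist (i, a) (k, a) = 1 :=
          SimpleGraph.edist_eq_one_iff_adj.2 (Or.inl hk.symm)
        have h2 : (G t).edist (k, a) (i, b) = 1 :=
          SimpleGraph.edist_eq_one_iff_adj.2 (Or.inl hk)
        have := (G t).edist_triangle (u := (i, a)) (v := (k, a)) (w := (i, b))
        rw [h1, h2] at this
        exact this
      · have h1 : (G t).edist (i, a) (j, b) = 1 :=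
          SimpleGraph.edist_eq_one_iff_adj.2 (Or.inl hij)
        rw [h1]; norm_num
    · let i : Fin t := ⟨0, by omega⟩
      refine le_trans ?_ (SimpleGraph.edist_le_ediam (u := (i, 0)) (v := (i, 2)))
      have : ¬ (G t).edist (i, 0) (i, 2) ≤ 1 := by
        rw [SimpleGraph.edist_le_one_iff_adj_or_eq]
        rintro ((h | h) | h)
        · exact h rfl
        · exact (by decide : ¬ hadj 0 2) h
        · simp at h
      exact Order.add_one_le_of_lt (not_le.1 this)
  · rintro ⟨i, a⟩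
    have h1 := Set.ncard_add_ncard_compl (ball (G t) (i, a) 1)
    have h2 : (ball (G t) (i, a) 1)ᶜ = (fun c => (i, c)) ''
        ((Finset.univ.filter (fun c => ¬ (hadj a c ∨ a = c)) : Finset (Fin 9)) : Set (Fin 9)) := by
      ext ⟨k, c⟩
      rw [Set.mem_compl_iff, mem_ball]
      constructor
      · intro h
        push Not at h
        obtain ⟨rfl, h⟩ := h
        exact ⟨c, by simpa using h, rfl⟩
      · rintro ⟨c', hc, h⟩
        obtain ⟨rfl, rfl⟩ := Prod.mk.inj h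
        simpa using hc
    rw [h2, Set.ncard_image_of_injective _ (fun _ _ h => (Prod.mk.inj h).2),
      Set.ncard_coe_finset, (by decide : ∀ a : Fin 9,
        (Finset.univ.filter (fun c => ¬ (hadj a c ∨ a = c))).card = 6)] at h1
    simp at h1
    omega
  · rintro ⟨i, a⟩ ⟨j, b⟩
    let Φ : Fin t × Fin 9 ≃ Fin t × Fin 9 :=
      (Equiv.prodCongrRight (fun k => if k = i then pr a b else Equiv.refl _)).trans
        (Equiv.prodCongr (Equiv.swap i j) (Equiv.refl _))
    have hΦ1 : ∀ c, Φ (i, c) = (j, f b (g a c)) := fun c => by simp [Φ, pr]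
    have hΦ2 : ∀ k c, i ≠ k → Φ (k, c) = (Equiv.swap i j k, c) := fun k c h => by
      simp [Φ, h.symm]
    have hsw : ∀ k, i ≠ k → j ≠ Equiv.swap i j k := fun k h h' => by
      apply h
      apply (Equiv.swap i j).injective
      rw [← h', Equiv.swap_apply_left]
    have hmem : ∀ p, p ∈ ball (G t) (i, a) 1 ↔ Φ p ∈ ball (G t) (j, b) 1 := by
      rintro ⟨k, c⟩
      by_cases h : i = k
      · subst h
        rw [hΦ1, mem_ball, mem_ball]
        simp only [ne_eq, not_true_eq_false, false_or]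
        exact pr2 a b c
      · rw [hΦ2 k c h, mem_ball, mem_ball]
        exact ⟨fun _ => Or.inl (hsw k h), fun _ => Or.inl h⟩
    refine ⟨⟨Φ.subtypeEquiv hmem, ?_⟩, ?_⟩
    · rintro ⟨⟨k, c⟩, hk⟩ ⟨⟨l, d⟩, hl⟩
      change (G t).Adj (Φ (k, c)) (Φ (l, d)) ↔ (G t).Adj (k, c) (l, d)
      rw [mem_ball] at hk hl
      by_cases h : i = k <;> by_cases h' : i = l
      · subst h h'
        rw [hΦ1, hΦ1]
        change (j ≠ j ∨ _) ↔ (i ≠ i ∨ _)
        simp only [ne_eq, not_true_eq_false, false_or] at hk hl ⊢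
        exact pr3 a b c d hk hl
      · subst h
        rw [hΦ1, hΦ2 l d h']
        exact ⟨fun _ => Or.inl h', fun _ => Or.inl (hsw l h')⟩
      · subst h'
        rw [hΦ1, hΦ2 k c h]
        exact ⟨fun _ => Or.inl (Ne.symm h), fun _ => Or.inl (hsw k h).symm⟩
      · rw [hΦ2 k c h, hΦ2 l d h']
        change (Equiv.swap i j k ≠ Equiv.swap i j l ∨ hadj c d) ↔ (k ≠ l ∨ hadj c d)
        rw [(Equiv.swap i j).injective.ne_iff]
    · rintro ⟨x, hx⟩ rfl
      change Φ (i, a) = (j, b)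
      rw [hΦ1, pr1]
  · intro h
    let i : Fin t := ⟨0, by omega⟩
    obtain ⟨φ, hφ⟩ := h (i, 0) (i, 4)
    have tw : ∀ u, (G t).Adj (i, 0) u ↔ (G t).Adj (i, 2) u := fun u =>
      or_congr Iff.rfl ((by decide : ∀ c : Fin 9, hadj 0 c ↔ hadj 2 c) u.2)
    have tw2 : ∀ u, (G t).Adj (i, 4) u ↔ (G t).Adj (φ (i, 2)) u := fun u => by
      rw [← hφ, ← φ.apply_symm_apply u, φ.map_rel_iff, φ.map_rel_iff]
      exact tw _
    have hne : φ (i, 2) ≠ (i, 4) := by
      rw [← hφ]
      intro h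
      have := φ.injective h
      simp at this
    rcases hx : φ (i, 2) with ⟨k, c⟩
    rw [hx] at tw2 hne
    by_cases hk : k = i
    · subst hk
      have : ∀ d, hadj 4 d ↔ hadj c d := fun d => by
        have := tw2 (i, d)
        change (i ≠ i ∨ _) ↔ (i ≠ i ∨ _) at this
        simpa using this
      exact hne (by rw [(by decide : ∀ c : Fin 9, (∀ d, hadj 4 d ↔ hadj c d) → c = 4) c this])
    · exact (G t).irrefl ((tw2 (i, 4)).2 (Or.inl hk))

end Pool.Agent.Results.MP_409260_co.JoinC4C5
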